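import Pool.Agent.Run7.h787.ST.Iface

/-! Project ST (helper787), piece ABEL (helper216): a criterion for `H(√u)` to be abelian over `K`. -/

set_option autoImplicit false

open NumberField IsDedekindDomain Polynomial

noncomputable section

namespace Run7.h216.ST

open Pool.Agent.Run7.h787.ST

/-- polynomials: if `p` is monic and split over `H`, and every root `r` of `p` is a square in `M`, then
`p (X ^ 2)` splits in `M` -/
theorem splits_comp_sq {H M : Type*} [Field H] [Field M] (i : H →+* M) (p : H[X]) (hp : p.Splits)
    (hm : p.Monic) (hr : ∀ r ∈ p.roots, ∃ y : M, y ^ 2 = i r) :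
    ((p.map i).comp (X ^ 2)).Splits := by
  have h1 := hp.eq_prod_roots_of_monic hm
  have h2 : (p.map i).comp (X ^ 2) =
      (p.roots.map (fun r => (X ^ 2 - C (i r) : M[X]))).prod := by
    conv_lhs => rw [h1]
    rw [Polynomial.map_multiset_prod, Multiset.map_map, Polynomial.multiset_prod_comp,
      Multiset.map_map]
    congr 1
    refine Multiset.map_congr rfl fun r _ => ?_
    simp
  rw [h2]
  refine Splits.multisetProd fun f hf => ?_
  obtain ⟨r, hr', rfl⟩ := Multiset.mem_map.1 hf
  obtain ⟨y, hy⟩ := hr r hr'
  have h3 : (X ^ 2 - C (i r) : M[X]) = (X - C y) * (X + C y) := by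
    rw [← hy, C_pow]
    ring
  rw [h3]
  exact (Splits.X_sub_C y).mul (Splits.X_add_C y)

theorem div_aux {F : Type*} [Field F] (e e' S a b c d : F) (h : a * b = c * d) :
    e' * (e * (S / a) / b) = e * (e' * (S / c) / d) := by
  rw [mul_div_assoc, div_div, h, mul_div_assoc, div_div]
  ring

theorem t_ABEL : S_ABEL := by
  intro K _ _ _ H u hH hu z hz1 hz2
  obtain ⟨hfin, hab⟩ := hH
  set s : ℝ := Real.sqrt (u : ℝ) with hs
  have hss : s ^ 2 = (u : ℝ) := Real.sq_sqrt hu.le
  have hHM : H ≤ ext H s := le_sup_left
  have hsM : s ∈ ext H s :=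
    (le_sup_right : IntermediateField.adjoin K {s} ≤ ext H s)
      (IntermediateField.subset_adjoin K {s} (Set.mem_singleton s))
  have hMadj : ext H s = IntermediateField.adjoin K ((H : Set ℝ) ∪ {s}) := by
    rw [IntermediateField.adjoin_union, IntermediateField.adjoin_self]
    rfl
  have hu0 : u ≠ 0 := by
    intro h
    rw [h] at hu
    exact lt_irrefl _ hu
  have hsi : IsIntegral K s := by
    refine IsIntegral.of_pow (n := 2) (by norm_num) ?_
    rw [hss]
    exact (Algebra.IsIntegral.isIntegral (R := K) u).map H.val
  have hfs : FiniteDimensional K (IntermediateField.adjoin K {s}) :=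
    IntermediateField.adjoin.finiteDimensional hsi
  have hfM : FiniteDimensional K (ext H s) := IntermediateField.finiteDimensional_sup _ _
  let i : H →ₐ[K] ext H s := IntermediateField.inclusion hHM
  have hi : ∀ x : H, ((i x : ext H s) : ℝ) = (x : ℝ) := fun x => rfl
  let S : ext H s := ⟨s, hsM⟩
  have hS : S ^ 2 = i u := by
    apply Subtype.ext
    exact hss
  have hz0 : ∀ g, z g ≠ 0 := by
    intro g h
    have := hz1 g
    rw [h] at this
    apply hu0
    rw [← this]
    ring
  have hzi0 : ∀ g, i (z g) ≠ 0 := fun g => by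
    rw [map_ne_zero_iff i i.injective]
    exact hz0 g
  have hsq : ∀ g : Gal H, (S / i (z g)) ^ 2 = i (g u) := by
    intro g
    rw [div_pow, hS, div_eq_iff (pow_ne_zero 2 (hzi0 g)), ← map_pow, ← map_mul, mul_comm, hz1]
  -- normality
  have hnorm : Normal K (ext H s) := by
    rw [normal_iff]
    intro x
    refine ⟨Algebra.IsIntegral.isIntegral x, ?_⟩
    have h1 : minpoly K x = minpoly K (x : ℝ) :=
      (minpoly.algHom_eq (ext H s).val (ext H s).val.injective x).symm
    rw [h1]
    refine IntermediateField.splits_of_mem_adjoin K ℝ (S := (H : Set ℝ) ∪ {s}) ?_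
      (by rw [← hMadj]; exact x.2)
    rintro y (hy | hy)
    · have h2 : minpoly K y = minpoly K (⟨y, hy⟩ : H) :=
        minpoly.algHom_eq H.val H.val.injective (⟨y, hy⟩ : H)
      refine ⟨(Algebra.IsIntegral.isIntegral (R := K) (⟨y, hy⟩ : H)).map H.val, ?_⟩
      rw [h2]
      have h3 := (Normal.splits (inferInstance : Normal K H) (⟨y, hy⟩ : H)).map i.toRingHom
      rw [Polynomial.map_map] at h3
      convert h3 using 2
      exact i.comp_algebraMap.symm
    · rw [Set.mem_singleton_iff] at hy
      rw [hy]
      refine ⟨hsi, ?_⟩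
      set m := minpoly K u with hm
      have hmm : m.Monic := minpoly.monic (Algebra.IsIntegral.isIntegral u)
      have h2 : minpoly K s ∣ m.comp (X ^ 2) := by
        refine minpoly.dvd K s ?_
        rw [aeval_comp, map_pow, aeval_X, hss]
        have h3 := minpoly.aeval K u
        have h4 : aeval (H.val u) m = H.val (aeval u m) := aeval_algHom_apply H.val u m
        change aeval (H.val u) m = 0
        rw [h4, h3, map_zero]
      have h5 : ((m.comp (X ^ 2)).map (algebraMap K (ext H s))).Splits := by
        have h6 := splits_comp_sq i.toRingHom (m.map (algebraMap K H))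
          (Normal.splits (inferInstance : Normal K H) u) (hmm.map _) ?_
        · rw [Polynomial.map_map] at h6
          rw [Polynomial.map_comp]
          convert h6 using 3
          · exact i.comp_algebraMap.symm
          · simp
        · intro r hr
          have h7 : aeval r m = 0 := by
            have h8 := (mem_roots'.1 hr).2
            rwa [IsRoot.def, eval_map_algebraMap] at h8
          obtain ⟨g, hg⟩ := minpoly.exists_algEquiv_of_root'
            (Algebra.IsAlgebraic.isAlgebraic (R := K) u) h7
          refine ⟨S / i (z g), ?_⟩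
          rw [hsq g, hg]
          rfl
      refine h5.of_dvd ?_ (Polynomial.map_dvd _ h2)
      have h9 : (m.comp (X ^ 2)).Monic := by
        refine hmm.comp (monic_X_pow 2) ?_
        rw [natDegree_X_pow]
        norm_num
      exact (h9.map _).ne_zero
  have hgal : IsGalois K (ext H s) := { to_normal := hnorm }
  let alg : Algebra H (ext H s) := i.toRingHom.toAlgebra
  have htow : IsScalarTower K H (ext H s) := IsScalarTower.of_algebraMap_eq' i.comp_algebraMap.symm
  have hres : ∀ σ : Gal (ext H s), ∃ g : Gal H, (∀ x : H, σ (i x) = i (g x)) ∧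
      ∃ e : ℤ, σ S = (e : ext H s) * (S / i (z g)) := by
    intro σ
    refine ⟨σ.restrictNormal H, fun x => (σ.restrictNormal_commutes H x).symm, ?_⟩
    have h1 : (σ S) ^ 2 = (S / i (z (σ.restrictNormal H))) ^ 2 := by
      rw [← map_pow, hS, hsq]
      exact (σ.restrictNormal_commutes H u).symm
    rcases sq_eq_sq_iff_eq_or_eq_neg.1 h1 with h | h
    · exact ⟨1, by rw [h]; push_cast; ring⟩
    · exact ⟨-1, by rw [h]; push_cast; ring⟩
  have hcomm : ∀ σ τ : Gal (ext H s), σ * τ = τ * σ := by
    intro σ τ
    obtain ⟨g, hg, e, he⟩ := hres σ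
    obtain ⟨g', hg', e', he'⟩ := hres τ
    have hgg : g * g' = g' * g := (isMulCommutative_iff.1 hab.toIsMulCommutative) g g'
    have h1 : ((σ * τ : Gal (ext H s)) : ext H s →ₐ[K] ext H s) = (τ * σ : Gal (ext H s)) := by
      refine IntermediateField.algHom_ext_of_eq_adjoin K hMadj ?_
      rintro x (hx | hx)
      · have h2 : σ (τ (i ⟨x, hx⟩)) = τ (σ (i ⟨x, hx⟩)) := by
          rw [hg', hg, hg, hg']
          have := DFunLike.congr_fun hgg (⟨x, hx⟩ : H)
          exact congrArg i this
        exact h2
      · have hx' : x = s := hx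
        subst hx'
        have h2 : σ (τ S) = τ (σ S) := by
          rw [he', he, map_mul, map_mul, map_div₀, map_div₀, hg, hg', he, he', map_intCast,
            map_intCast]
          have h3 := congrArg i (hz2 g g')
          rw [map_mul, map_mul] at h3
          exact div_aux _ _ _ _ _ _ _ h3
        exact h2
    exact AlgEquiv.coe_toAlgHom_injective h1
  exact { toIsGalois := hgal, toIsMulCommutative := isMulCommutative_iff.2 hcomm }

end Run7.h216.ST
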