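import Pool.Agent.Run7.h787.ST.Iface

/-! Project ST (helper787), pieces GOUP and UNIQ (helper216): primes of the ring of all real
algebraic integers, uniqueness of the Frobenius automorphism. -/

set_option autoImplicit false

open NumberField IsDedekindDomain

noncomputable section

namespace Run7.h216.ST

open Pool.Agent.Run7.h787.ST

theorem exists_realPrime (F : Type) [Field F] (φ : F →+* ℝ) (Q : Ideal (𝓞 F)) [Q.IsPrime] :
    ∃ P : Set ℝ, IsRealPrime P ∧ ∀ x : 𝓞 F, φ (x : F) ∈ P ↔ x ∈ Q := by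
  have hint : ∀ x : 𝓞 F, IsIntegral ℤ (φ (x : F)) := fun x => by
    have h := x.isIntegral_coe
    exact h.map φ.toIntAlgHom
  let f : 𝓞 F →+* integralClosure ℤ ℝ :=
    { toFun := fun x => ⟨φ (x : F), hint x⟩
      map_one' := by
        ext
        simp
      map_mul' := fun x y => by
        ext
        simp
      map_zero' := by
        ext
        simp
      map_add' := fun x y => by
        ext
        simp }
  have hfv : ∀ x : 𝓞 F, ((f x : integralClosure ℤ ℝ) : ℝ) = φ (x : F) := fun x => rfl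
  let : Algebra (𝓞 F) (integralClosure ℤ ℝ) := f.toAlgebra
  have hi : Algebra.IsIntegral (𝓞 F) (integralClosure ℤ ℝ) := by
    have : IsScalarTower ℤ (𝓞 F) (integralClosure ℤ ℝ) := by
      refine IsScalarTower.of_algebraMap_eq' ?_
      exact RingHom.ext_int _ _
    exact Algebra.IsIntegral.tower_top (R := ℤ)
  have hker : RingHom.ker (algebraMap (𝓞 F) (integralClosure ℤ ℝ)) ≤ Q := by
    intro x hx
    have h1 : f x = 0 := hx
    have h2 : φ (x : F) = 0 := by
      rw [← hfv, h1]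
      rfl
    have h3 : (x : F) = 0 := (map_eq_zero φ).1 h2
    have h4 : x = 0 := by
      ext
      exact h3
    rw [h4]
    exact Q.zero_mem
  obtain ⟨PA, hPA, hPQ⟩ := Ideal.exists_ideal_over_prime_of_isIntegral_of_isDomain Q hker
  refine ⟨{x | ∃ h : IsIntegral ℤ x, (⟨x, h⟩ : integralClosure ℤ ℝ) ∈ PA}, ⟨?_, ?_, ?_, ?_, ?_, ?_⟩,
    ?_⟩
  · rintro x ⟨h, -⟩
    exact h
  · exact ⟨isIntegral_zero, PA.zero_mem⟩
  · rintro x ⟨hx, hx'⟩ y ⟨hy, hy'⟩
    exact ⟨hx.add hy, PA.add_mem hx' hy'⟩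
  · rintro x y hx ⟨hy, hy'⟩
    exact ⟨hx.mul hy, PA.mul_mem_left ⟨x, hx⟩ hy'⟩
  · rintro ⟨h, h'⟩
    exact hPA.ne_top ((Ideal.eq_top_iff_one _).2 h')
  · rintro x y hx hy ⟨h, h'⟩
    rcases hPA.mem_or_mem (x := ⟨x, hx⟩) (y := ⟨y, hy⟩) h' with h1 | h1
    · exact Or.inl ⟨hx, h1⟩
    · exact Or.inr ⟨hy, h1⟩
  · intro x
    rw [← hPQ, Ideal.mem_comap]
    constructor
    · rintro ⟨h, h'⟩
      exact h'
    · intro h'
      exact ⟨hint x, h'⟩

theorem t_GOUP : S_GOUP := by
  intro K _ _ _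
  refine ⟨fun H _ Q => ?_, fun p => ?_⟩
  · have := Q.isPrime
    exact exists_realPrime H (algebraMap H ℝ) Q.asIdeal
  · have := p.isPrime
    exact exists_realPrime K (algebraMap K ℝ) p.asIdeal

theorem t_UNIQ (hG : S_GOUP) : S_UNIQ := by
  intro K _ _ _ H p g g' hU hg hg'
  obtain ⟨P, hP⟩ := (hG K).2 p
  have hPP := hP.1
  have key : g' * g⁻¹ = 1 := by
    refine hU P hP _ fun x hx => ?_
    set y : H := g⁻¹ x with hy
    have hgy : g y = x := by
      rw [hy]
      exact g.apply_symm_apply x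
    have hyi : IsIntegral ℤ (y : ℝ) := by
      have h1 : IsIntegral ℤ x := (isIntegral_algHom_iff (H.val.restrictScalars ℤ)
        H.val.injective).1 hx
      have h2 : IsIntegral ℤ y := h1.map (g⁻¹ : Gal H)
      exact h2.map H.val
    have h1 := hg P hP y hyi
    have h2 := hg' P hP y hyi
    have h3 := hPP.2.2.1 _ h2 _ (hPP.2.2.2.1 (-1) _ isIntegral_one.neg h1)
    have h4 : ((g' * g⁻¹) x : H) = g' y := rfl
    rw [h4]
    rw [hgy] at h1 h3
    convert h3 using 1
    ring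
  exact (mul_inv_eq_one.1 key).symm

end Run7.h216.ST
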